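import Pool.Agent.H.MP_dad682_an.B

set_option autoImplicit false

namespace Pool.Agent.Results.MP_dad682_an.No

open Pool.Agent.H.MP_dad682_an

theorem result : ∃ (H : Type) (_ : NormedAddCommGroup H) (_ : InnerProductSpace ℂ H)
    (_ : CompleteSpace H) (A I : Set (Op H)), IsCStar A ∧ IsCStar I ∧ A ⊆ I ∧ Inj I ∧
    (∀ u : Op H → Op H, CC I I u → (∀ a ∈ A, u a = a) → ∀ x ∈ I, u x = x) ∧
    Norms I Set.univ ∧ ¬ Norms A Set.univ :=
  ⟨HH, inferInstance, inferInstance, inferInstance, _, _, DD_cstar _ _, DD_cstar _ _, le_DD, inj,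
    rigid, norms, not_norms⟩

end Pool.Agent.Results.MP_dad682_an.No
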